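import Pool.Agent.Helper71.PR.Goals

/-!
# Packet PR-F3: closed sets of points and lines of the real projective plane
-/

namespace Pool.Agent.Helper49.PR

open Pool.Agent.Helper71.PR
open Filter Topology Matrix

theorem f3 : G_F3 := by
  intro P Λ h0P h0Λ hcl hsP hsΛ hjoin hmeet he0 he1 he2 hu
  have key : ∀ a ∈ P, ∀ b ∈ P, ∀ c ∈ P, ∀ d ∈ P, ∀ v : Fin 3 → ℝ, ∀ μ : ℝ, v ≠ 0 → μ ≠ 0 →
      crossProduct (crossProduct a b) (crossProduct c d) = μ • v → v ∈ P := by
    intro a ha b hb c hc d hd v μ hv hμ h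
    have hne : crossProduct (crossProduct a b) (crossProduct c d) ≠ 0 := by
      rw [h]
      exact smul_ne_zero hμ hv
    have h1 : crossProduct a b ≠ 0 := by
      intro h1
      apply hne
      rw [h1]
      simp
    have h2 : crossProduct c d ≠ 0 := by
      intro h2
      apply hne
      rw [h2]
      simp
    have h3 := hmeet _ (hjoin a ha b hb h1) _ (hjoin c hc d hd h2) hne
    have h4 := hsP _ h3 μ⁻¹ (inv_ne_zero hμ)
    rw [h, smul_smul, inv_mul_cancel₀ hμ, one_smul] at h4
    exact h4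
  have n0 : ∀ x y : ℝ, (![x, y, 1] : Fin 3 → ℝ) ≠ 0 := by
    intro x y h
    have := congrFun h 2
    simp at this
  have n1 : ∀ x z : ℝ, (![x, 1, z] : Fin 3 → ℝ) ≠ 0 := by
    intro x z h
    have := congrFun h 1
    simp at this
  have p110 : ![1, 1, 0] ∈ P := by
    refine key _ he2 _ hu _ he0 _ he1 _ 1 (n1 _ _) one_ne_zero ?_
    ext i
    fin_cases i <;> simp [cross_apply]
  have p101 : ![1, 0, 1] ∈ P := by
    refine key _ he1 _ hu _ he0 _ he2 _ (-1) (n0 _ _) (by norm_num) ?_
    ext i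
    fin_cases i <;> simp [cross_apply]
  have q : ![0, -1, 1] ∈ P := by
    refine key _ p110 _ p101 _ he1 _ he2 _ 1 (n0 _ _) one_ne_zero ?_
    ext i
    fin_cases i <;> simp [cross_apply]
  have tr1 : ∀ t : ℝ, ![t, 1, 0] ∈ P → ![t, 0, 1] ∈ P := by
    intro t ht
    refine key _ ht _ q _ he0 _ he2 _ (-1) (n0 _ _) (by norm_num) ?_
    ext i
    fin_cases i <;> simp [cross_apply]
  have tr2 : ∀ t : ℝ, ![t, 0, 1] ∈ P → ![t, 1, 0] ∈ P := by
    intro t ht
    refine key _ ht _ q _ he0 _ he1 _ (-1) (n1 _ _) (by norm_num) ?_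
    ext i
    fin_cases i <;> simp [cross_apply]
  have sub : ∀ s t : ℝ, ![s, 1, 0] ∈ P → ![t, 1, 0] ∈ P → ![s - t, 1, 0] ∈ P := by
    intro s t hs ht
    have hm : ![s - t, 1, -1] ∈ P := by
      refine key _ hs _ (tr1 t ht) _ he0 _ q _ 1 (n1 _ _) one_ne_zero ?_
      ext i
      fin_cases i <;> simp [cross_apply]
    refine key _ he2 _ hm _ he0 _ he1 _ 1 (n1 _ _) one_ne_zero ?_
    ext i
    fin_cases i <;> simp [cross_apply]
  have neg1 : ![(-1 : ℝ), 1, 0] ∈ P := by
    have := sub 0 1 he1 p110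
    simpa using this
  have tr3 : ∀ t : ℝ, ![t, 0, 1] ∈ P → ![0, t, 1] ∈ P := by
    intro t ht
    refine key _ ht _ neg1 _ he1 _ he2 _ 1 (n0 _ _) one_ne_zero ?_
    ext i
    fin_cases i <;> simp [cross_apply]
  have xy : ∀ x y : ℝ, ![x, 0, 1] ∈ P → ![0, y, 1] ∈ P → ![x, y, 1] ∈ P := by
    intro x y hx hy
    refine key _ he1 _ hx _ he0 _ hy _ (-1) (n0 _ _) (by norm_num) ?_
    ext i
    fin_cases i <;> simp [cross_apply]
  have mul : ∀ s t : ℝ, ![s, 1, 0] ∈ P → ![t, 1, 0] ∈ P → ![s * t, 1, 0] ∈ P := by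
    intro s t hs ht
    have hf := tr3 t (tr1 t ht)
    have h1 : ![s * t, t, 1] ∈ P := by
      refine key _ he2 _ hs _ he0 _ hf _ 1 (n0 _ _) one_ne_zero ?_
      ext i
      fin_cases i <;> simp [cross_apply]
    refine tr2 _ ?_
    refine key _ he1 _ h1 _ he0 _ he2 _ (-1) (n0 _ _) (by norm_num) ?_
    ext i
    fin_cases i <;> simp [cross_apply]
  have inv : ∀ t : ℝ, t ≠ 0 → ![t, 1, 0] ∈ P → ![t⁻¹, 1, 0] ∈ P := by
    intro t h0 ht
    have h1 : ![1, t⁻¹, 0] ∈ P := by
      have := hsP _ ht t⁻¹ (inv_ne_zero h0)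
      have e : t⁻¹ • (![t, 1, 0] : Fin 3 → ℝ) = ![1, t⁻¹, 0] := by
        ext i
        fin_cases i <;> simp [h0]
      rwa [e] at this
    have h2 : ![0, t⁻¹, 1] ∈ P := by
      refine key _ h1 _ (tr1 _ neg1) _ he1 _ he2 _ 1 (n0 _ _) one_ne_zero ?_
      ext i
      fin_cases i <;> simp [cross_apply]
    refine tr2 _ ?_
    refine key _ h2 _ neg1 _ he0 _ he2 _ 1 (n0 _ _) one_ne_zero ?_
    ext i
    fin_cases i <;> simp [cross_apply]
  let F : Subfield ℝ :=
    { carrier := {t : ℝ | ![t, 1, 0] ∈ P}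
      zero_mem' := he1
      one_mem' := p110
      add_mem' := by
        intro s t hs ht
        have h1 := sub 0 t he1 ht
        have h2 := sub s (0 - t) hs h1
        have e : s - (0 - t) = s + t := by ring
        rw [e] at h2
        exact h2
      mul_mem' := by
        intro s t hs ht
        exact mul s t hs ht
      neg_mem' := by
        intro t ht
        have h1 := sub 0 t he1 ht
        rw [zero_sub] at h1
        exact h1
      inv_mem' := by
        intro t ht
        by_cases h0 : t = 0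
        · rw [h0, _root_.inv_zero]
          exact he1
        · exact inv t h0 ht }
  have hclosed : IsClosed (F : Set ℝ) := by
    refine IsSeqClosed.isClosed ?_
    intro x y hx hy
    refine hcl (fun m => ![x m, 1, 0]) ![y, 1, 0] hx ?_ (n1 _ _)
    rw [tendsto_pi_nhds]
    intro i
    fin_cases i
    · simpa using hy
    · simp
    · simp
  have hT : ∀ t : ℝ, ![t, 1, 0] ∈ P := by
    intro t
    have h1 : Set.range ((↑) : ℚ → ℝ) ⊆ (F : Set ℝ) := by
      rintro _ ⟨r, rfl⟩
      exact SubfieldClass.ratCast_mem F r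
    have h2 : closure (Set.range ((↑) : ℚ → ℝ)) ⊆ (F : Set ℝ) :=
      closure_minimal h1 hclosed
    have h3 : t ∈ closure (Set.range ((↑) : ℚ → ℝ)) := by
      rw [Rat.denseRange_cast.closure_range]
      exact Set.mem_univ t
    exact h2 h3
  intro v hv
  by_cases h2 : v 2 = 0
  · by_cases h1 : v 1 = 0
    · have h3 : v 0 ≠ 0 := by
        intro h3
        apply hv
        ext i
        fin_cases i
        · exact h3
        · exact h1
        · exact h2
      have := hsP _ he0 (v 0) h3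
      have e : v 0 • (![1, 0, 0] : Fin 3 → ℝ) = v := by
        ext i
        fin_cases i <;> simp [h1, h2]
      rwa [e] at this
    · have := hsP _ (hT (v 0 / v 1)) (v 1) h1
      have e : v 1 • (![v 0 / v 1, 1, 0] : Fin 3 → ℝ) = v := by
        ext i
        fin_cases i
        · simp; field_simp
        · simp
        · simp [h2]
      rwa [e] at this
  · have hx := xy (v 0 / v 2) (v 1 / v 2) (tr1 _ (hT _)) (tr3 _ (tr1 _ (hT _)))
    have := hsP _ hx (v 2) h2
    have e : v 2 • (![v 0 / v 2, v 1 / v 2, 1] : Fin 3 → ℝ) = v := by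
      ext i
      fin_cases i
      · simp; field_simp
      · simp; field_simp
      · simp
    rwa [e] at this

end Pool.Agent.Helper49.PR
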